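import Pool.Agent.Helper49.OWN.ASCore

/-!
# Every extension is realised over the prime field

`L = k(x, w)` with `x` transcendental over `k`, `w ^ p - w = f (x)` and `w ∉ k(x)` is the function
field of the curve `C_f`, and `(x, w) ↦ (x, w + 1)` generates its Artin-Schreier group.
-/

set_option autoImplicit false

open Polynomial

namespace Pool.Agent.Results.MP_179273_ag.OverPrimeField

section Defs

variable {k L : Type} [Field k] [Field L] [Algebra k L]

/-- `L = k(x, w)` is the function field of the curve `W ^ p - W = f (X)`: `x` is transcendental,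
`w ^ p - w = f (x)` and `w ∉ k(x)` -/
def IsFunctionField (p : ℕ) (f : k[X]) (x w : L) : Prop :=
  Transcendental k x ∧ IntermediateField.adjoin k {x, w} = ⊤ ∧ w ^ p - w = aeval x f ∧
    w ∉ IntermediateField.adjoin k {x}

/-- some `p`-Sylow subgroup `S` of `Aut_k(L)` contains the automorphism `σ : (x, w) ↦ (x, w + 1)`,
and some isomorphism from `S` to `G` carries the group generated by `σ` onto `K` -/
def Realizes (k : Type) [Field k] [Algebra k L] (p : ℕ) (x w : L) {G : Type} [Group G]
    (K : Subgroup G) : Prop :=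
  ∃ (S : Sylow p (L ≃ₐ[k] L)) (σ : S), σ.1 x = x ∧ σ.1 w = w + 1 ∧
    ∃ e : S ≃* G, (Subgroup.zpowers σ).map e.toMonoidHom = K

end Defs

/-- Every extension `(G, K)` of `(ℤ/p)ⁿ` by `ℤ/p` is realised by the curve `w ^ p - w = f (x)` for
some `f ∈ 𝔽_p[X]`. -/
theorem result (p : ℕ) [Fact p.Prime] (k : Type) [Field k] [IsAlgClosed k] [CharP k p]
    (n : ℕ) (G : Type) [Group G] (K : Subgroup G) [K.Normal]
    (hK : Nonempty (K ≃* Multiplicative (ZMod p)))
    (hG : Nonempty (G ⧸ K ≃* Multiplicative (Fin n → ZMod p))) :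
    ∃ (f : (ZMod p)[X]) (L : Type) (_ : Field L) (_ : Algebra k L) (x w : L),
      IsFunctionField p (f.map (ZMod.castHom (dvd_refl p) k)) x w ∧ Realizes k p x w K := by
  obtain ⟨f₀, hdeg, hirr, S, σ, h1, h2, h3⟩ := Pool.Agent.Helper49.ASCore.main p k n G K hK hG
  have : Fact (Irreducible (Pool.Agent.Helper94.AS.asPoly p
    (f₀.map (ZMod.castHom (dvd_refl p) k)))) := ⟨hirr⟩
  refine ⟨f₀, Pool.Agent.Helper94.AS.FF p (f₀.map (ZMod.castHom (dvd_refl p) k)), inferInstance,
    inferInstance, Pool.Agent.Helper94.AS.xx _, Pool.Agent.Helper94.AS.WW _,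
    ⟨Pool.Agent.Helper49.ASCore.x_transcendental _, Pool.Agent.Helper49.ASCore.adjoin_top _, ?_,
      Pool.Agent.Helper49.ASCore.w_not_mem _ hdeg⟩, S, σ, ?_, h2, h3⟩
  · rw [Pool.Agent.Helper94.AS.WW_eq, Pool.Agent.Helper94.AS.algMap_eq_aeval]
  · show σ.1 (algebraMap k[X] _ X) = algebraMap k[X] _ X
    rw [Pool.Agent.Helper94.AS.algMap_poly]
    exact h1 _

end Pool.Agent.Results.MP_179273_ag.OverPrimeField
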